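import Pool.Agent.H207.TP.Stm2

/-! # Project TP (helper207), task HDP (helper706): derivatives of the Taylor coefficients of the
derivative -/

set_option autoImplicit false

open Metric Set MeasureTheory Filter Topology Polynomial
open scoped OnePoint ENNReal

namespace Pool.Agent.H706.TP207

open Pool.Agent.H207.TP
open Pool.Agent.H211.LD (pol)

lemma pol_add {n : ℕ} (a b : Fin n → ℂ) (s : ℂ) :
    pol (a + s • b) = pol a + C s * pol b := by
  unfold pol
  rw [Finset.mul_sum, ← Finset.sum_add_distrib]
  refine Finset.sum_congr rfl fun i _ => ?_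
  rw [Pi.add_apply, Pi.smul_apply, smul_eq_mul, C_add, C_mul]
  ring

lemma hasse_C_mul (j : ℕ) (c : ℂ) (P : ℂ[X]) : hasseDeriv j (C c * P) = C c * hasseDeriv j P := by
  rw [← smul_eq_C_mul, ← smul_eq_C_mul, map_smul]

lemma contDiff_eval (P : ℂ[X]) : ContDiff ℂ 1 (fun z : ℂ => P.eval z) := by
  simp only [Polynomial.eval_eq_sum_range]
  exact ContDiff.sum fun i _ => contDiff_const.mul (contDiff_id.pow i)

lemma F_cd (d j : ℕ) : ContDiff ℂ 1
    (fun p : PC d × ℂ => (hasseDeriv j (derivative (pol p.1))).eval p.2) := by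
  have h1 : (fun p : PC d × ℂ => (hasseDeriv j (derivative (pol p.1))).eval p.2) =
      fun p : PC d × ℂ => ∑ i : Fin (d + 1), p.1 i *
        (hasseDeriv j (derivative (X ^ (i : ℕ)))).eval p.2 := by
    funext p
    unfold pol
    rw [derivative_sum, map_sum, eval_finsetSum]
    refine Finset.sum_congr rfl fun i _ => ?_
    rw [derivative_C_mul, hasse_C_mul, eval_mul, eval_C]
  rw [h1]
  refine ContDiff.sum fun i _ => ?_
  have h2 : ContDiff ℂ 1 (fun p : PC d × ℂ => p.1 i) :=
    (contDiff_apply ℂ ℂ i).comp contDiff_fst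
  have h4 : ContDiff ℂ 1 (fun p : PC d × ℂ =>
      (hasseDeriv j (derivative (X ^ (i : ℕ))) : ℂ[X]).eval p.2) :=
    (contDiff_eval _).comp contDiff_snd
  exact h2.mul h4

lemma line {d : ℕ} (x v : PC d) (j : ℕ) (s : ℂ) :
    hasseDeriv j (derivative (pol (x + s • v))) =
      hasseDeriv j (derivative (pol x)) + C s * hasseDeriv j (derivative (pol v)) := by
  rw [pol_add, derivative_add, derivative_C_mul, map_add, hasse_C_mul]

lemma deriv_hasse (j : ℕ) (P : ℂ[X]) :
    derivative (hasseDeriv j P) = C ((j : ℂ) + 1) * hasseDeriv (j + 1) P := by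
  have h1 := congrArg (fun L => L P) (hasseDeriv_comp (R := ℂ) 1 j)
  simp only [LinearMap.comp_apply, LinearMap.smul_apply, hasseDeriv_one'] at h1
  rw [h1, Nat.choose_one_right, add_comm 1 j, nsmul_eq_mul]
  push_cast
  rw [C_add, C_1]
  congr 1

theorem hdp (d : ℕ) (x : PC d) (z : ℂ) (j : ℕ) :
    ContDiffAt ℂ 1 (fun p : PC d × ℂ => (hasseDeriv j (derivative (pol p.1))).eval p.2) (x, z) ∧
    ∀ (v : PC d) (w : ℂ),
      fderiv ℂ (fun p : PC d × ℂ => (hasseDeriv j (derivative (pol p.1))).eval p.2) (x, z) (v, w) =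
        eqP (pol x) (pol v) z w j := by
  refine ⟨(F_cd d j).contDiffAt, fun v w => ?_⟩
  set F : PC d × ℂ → ℂ := fun p => (hasseDeriv j (derivative (pol p.1))).eval p.2 with hF
  have hdF : DifferentiableAt ℂ F (x, z) := ((F_cd d j).differentiable one_ne_zero) (x, z)
  -- the line
  have hl1 : HasDerivAt (fun s : ℂ => x + s • v) v 0 := by
    have h := ((hasDerivAt_id (0 : ℂ)).smul_const v).const_add x
    simpa using h
  have hl2 : HasDerivAt (fun s : ℂ => z + s * w) w 0 := by
    have h := ((hasDerivAt_id (0 : ℂ)).mul_const w).const_add z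
    simpa using h
  have hl : HasDerivAt (fun s : ℂ => (x + s • v, z + s * w)) (v, w) 0 := hl1.prodMk hl2
  have hF0 : HasFDerivAt F (fderiv ℂ F (x, z)) ((fun s : ℂ => (x + s • v, z + s * w)) 0) := by
    simp only [zero_smul, add_zero, zero_mul]
    exact hdF.hasFDerivAt
  have h1 : HasDerivAt (F ∘ fun s : ℂ => (x + s • v, z + s * w)) (fderiv ℂ F (x, z) (v, w)) 0 :=
    hF0.comp_hasDerivAt (0 : ℂ) hl
  -- the other computation
  have h2 : (F ∘ fun s : ℂ => (x + s • v, z + s * w)) = fun s : ℂ =>
      (hasseDeriv j (derivative (pol x))).eval (z + s * w) +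
        s * (hasseDeriv j (derivative (pol v))).eval (z + s * w) := by
    funext s
    simp only [Function.comp_apply, hF]
    rw [line]
    simp only [eval_add, eval_mul, eval_C]
  have hpol : ∀ P : ℂ[X], HasDerivAt (fun s : ℂ => P.eval (z + s * w))
      ((derivative P).eval z * w) 0 := by
    intro P
    have h := (P.hasDerivAt (z + (0 : ℂ) * w))
    rw [zero_mul, add_zero] at h
    have h' : HasDerivAt (fun y : ℂ => P.eval y) ((derivative P).eval z)
        ((fun s : ℂ => z + s * w) 0) := by
      simp only [zero_mul, add_zero]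
      exact h
    exact h'.comp (0 : ℂ) hl2
  have h3 : HasDerivAt (fun s : ℂ => (hasseDeriv j (derivative (pol x))).eval (z + s * w) +
        s * (hasseDeriv j (derivative (pol v))).eval (z + s * w))
      (eqP (pol x) (pol v) z w j) 0 := by
    have a1 := hpol (hasseDeriv j (derivative (pol x)))
    have a2 := (hasDerivAt_id (0 : ℂ)).mul (hpol (hasseDeriv j (derivative (pol v))))
    have a4 := a1.add a2
    have e1 : eqP (pol x) (pol v) z w j =
        (derivative (hasseDeriv j (derivative (pol x)))).eval z * w +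
        (1 * (hasseDeriv j (derivative (pol v))).eval (z + 0 * w) +
          id 0 * ((derivative (hasseDeriv j (derivative (pol v)))).eval z * w)) := by
      unfold eqP
      rw [deriv_hasse, eval_mul, eval_C]
      simp only [id, zero_mul, add_zero, one_mul]
      ring
    rw [e1]
    exact a4
  rw [h2] at h1
  exact h1.unique h3

theorem t_HDP : Pool.Agent.H207.TP.S_HDP := fun d a z j => hdp d a z j

end Pool.Agent.H706.TP207
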