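import Pool.Agent.H207.TP.Stm3

/-! # Project TP (helper207), task DRL (helper706): derivatives of critical orbit relations along
families -/

set_option autoImplicit false

open Metric Set MeasureTheory Filter Topology Polynomial
open scoped OnePoint ENNReal

namespace Pool.Agent.H706.TP207

open Pool.Agent.H207.TP
open Pool.Agent.H211.LD (pol)

/-- the chain rule along a family -/
theorem drl_chain {d m : ℕ} {F : PC d × ℂ → ℂ} {p : (Fin m → ℂ) → PC d} {c : (Fin m → ℂ) → ℂ}
    {x : Fin m → ℂ} (hF : ContDiffAt ℂ 1 F (p x, c x)) (hp : DifferentiableAt ℂ p x)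
    (hc : DifferentiableAt ℂ c x) :
    HasFDerivAt (fun y => F (p y, c y))
      ((fderiv ℂ F (p x, c x)).comp ((fderiv ℂ p x).prod (fderiv ℂ c x))) x := by
  have h1 : HasFDerivAt (fun y => (p y, c y)) ((fderiv ℂ p x).prod (fderiv ℂ c x)) x :=
    hp.hasFDerivAt.prodMk hc.hasFDerivAt
  have h2 : HasFDerivAt F (fderiv ℂ F (p x, c x)) (p x, c x) :=
    (hF.differentiableAt one_ne_zero).hasFDerivAt
  exact HasFDerivAt.comp (f := fun y => (p y, c y)) x h2 h1

theorem t_DRL (h1 : S_ORBP) (h2 : S_HDP) : Pool.Agent.H207.TP.S_DRL := by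
  intro d m p c c' x n n' hp hc hc' hcr hre v
  constructor
  · have k := h2 d (p x) (c x) 0
    have a1 := drl_chain k.1 hp hc
    have a2 : HasFDerivAt (fun y => (hasseDeriv 0 (derivative (pol (p y)))).eval (c y))
        (0 : (Fin m → ℂ) →L[ℂ] ℂ) x := by
      refine (hasFDerivAt_const (0 : ℂ) x).congr_of_eventuallyEq ?_
      filter_upwards [hcr] with y hy
      rw [hasseDeriv_zero']
      exact hy
    have a3 := congrArg (fun L : (Fin m → ℂ) →L[ℂ] ℂ => L v) (a1.unique a2)
    rw [← k.2]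
    exact a3
  · have k := h1 d (p x) (c x) n
    have k' := h1 d (p x) (c' x) n'
    have a1 := drl_chain k.1 hp hc
    have a2 := drl_chain k'.1 hp hc'
    have a3 : HasFDerivAt (fun y => (ev (pol (p y)))^[n] (c y))
        ((fderiv ℂ (fun q : PC d × ℂ => (ev (pol q.1))^[n'] q.2) (p x, c' x)).comp
          ((fderiv ℂ p x).prod (fderiv ℂ c' x))) x :=
      a2.congr_of_eventuallyEq hre
    have a4 := congrArg (fun L : (Fin m → ℂ) →L[ℂ] ℂ => L v) (a1.unique a3)
    rw [← k.2, ← k'.2]
    exact a4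

end Pool.Agent.H706.TP207
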